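import Pool.Agent.Lib.MP_c0175c_an.Ch.Main

set_option autoImplicit false

open Pool.Agent.Lib.MP_c0175c_an.Ch

namespace Pool.Agent.Results.MP_c0175c_an.Characterisation

universe u

/-- A subset of c_0 lies in the range of a c_0-valued vector measure exactly when it is
approximable in norm by continuous linear images of the unit ball of the Hilbert space. -/
theorem result (K : Set (ZeroAtInftyContinuousMap ℕ ℝ)) :
    (∃ (α : Type u) (_ : MeasurableSpace α)
        (μ : MeasureTheory.VectorMeasure α (ZeroAtInftyContinuousMap ℕ ℝ)),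
        K ⊆ Set.range (fun s : Set α => μ s)) ↔
      ∀ ε : ℝ, 0 < ε → ∃ T : lp (fun _ : ℕ => ℝ) 2 →L[ℝ] ZeroAtInftyContinuousMap ℕ ℝ,
        ∀ x ∈ K, ∃ h : lp (fun _ : ℕ => ℝ) 2, ‖h‖ ≤ 1 ∧ ‖x - T h‖ ≤ ε := by
  constructor
  · rintro ⟨α, _, μ, h⟩ ε hε
    exact op_of_ap ((ap_range μ).mono h) hε
  · intro h
    obtain ⟨μ, hμ⟩ := range_of_ap (ap_of_op h)
    obtain ⟨β, i, ν, hν⟩ := range_lift.{u} μ
    exact ⟨β, i, ν, hμ.trans hν⟩

end Pool.Agent.Results.MP_c0175c_an.Characterisation
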