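import Pool.Agent.Lib.MP_c0175c_an.Cv.Main

set_option autoImplicit false

open Pool.Agent.Lib.MP_c0175c_an.Ch Pool.Agent.Lib.MP_c0175c_an.Cv

namespace Pool.Agent.Results.MP_c0175c_an.Curved

universe u v

/-- A normed space is uniformly curved exactly when every continuous linear image in c_0 of the
unit ball of its square sum lies in the range of a c_0-valued vector measure. -/
theorem result (X : Type v) [NormedAddCommGroup X] [NormedSpace ℝ X] :
    UniformlyCurved X ↔
      ∀ T : lp (fun _ : ℕ => X) 2 →L[ℝ] ZeroAtInftyContinuousMap ℕ ℝ,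
        ∃ (α : Type u) (_ : MeasurableSpace α)
          (μ : MeasureTheory.VectorMeasure α (ZeroAtInftyContinuousMap ℕ ℝ)),
          ∀ f, ‖f‖ ≤ 1 → ∃ s : Set α, μ s = T f := by
  constructor
  · intro h T
    obtain ⟨μ, hμ⟩ := range_of_ap (ap_of_curved h T)
    obtain ⟨β, i, ν, hν⟩ := range_lift.{u} μ
    exact ⟨β, i, ν, fun f hf => hν (hμ ⟨f, mem_closedBall_zero_iff.2 hf, rfl⟩)⟩
  · intro h
    refine curved_of_ap.{u} fun T => ?_
    obtain ⟨α, _, μ, k⟩ := h T
    refine (ap_range μ).mono ?_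
    rintro _ ⟨f, hf, rfl⟩
    exact k f (mem_closedBall_zero_iff.1 hf)

end Pool.Agent.Results.MP_c0175c_an.Curved
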