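import Pool.Agent.Lib.MP_c0175c_an.Sw.Lines

set_option autoImplicit false

open Set Pool.Agent.Lib.MP_c0175c_an.Ch

namespace Pool.Agent.Results.MP_c0175c_an.SuperWeak

universe u

/-- A countable weakly compact subset of c_0 that satisfies the finite form of the criterion of
James and lies in the range of no c_0-valued vector measure, on any measurable space. -/
theorem result :
    ∃ K : Set (ZeroAtInftyContinuousMap ℕ ℝ), K.Countable ∧
      IsCompact ((toWeakSpace ℝ (ZeroAtInftyContinuousMap ℕ ℝ)) '' K) ∧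
      (∀ ε : ℝ, 0 < ε → ∃ N : ℕ, ∀ x : ℕ → ZeroAtInftyContinuousMap ℕ ℝ, (∀ i < N, x i ∈ K) →
        ∃ k, 0 < k ∧ k < N ∧ ∃ y ∈ convexHull ℝ (x '' Iio k),
          ∃ z ∈ convexHull ℝ (x '' Ico k N), ‖y - z‖ ≤ ε) ∧
      ∀ (α : Type u) [MeasurableSpace α]
        (μ : MeasureTheory.VectorMeasure α (ZeroAtInftyContinuousMap ℕ ℝ)),
        ¬ K ⊆ Set.range (fun s : Set α => μ s) := by
  refine ⟨insert 0 (range line), (countable_range line).insert 0, ?_, fun ε hε => james ?_ ?_ hε,
    fun α _ μ h => not_ap_line ((ap_range μ).mono ((subset_insert _ _).trans h))⟩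
  · rw [image_insert_eq, ← range_comp]
    exact line_tendsto.isCompact_insert_range_of_cofinite
  · rintro _ (rfl | ⟨t, rfl⟩) n
    · exact Or.inl rfl
    · exact line01 t n
  · rintro _ (rfl | ⟨s, rfl⟩) _ (rfl | ⟨t, rfl⟩) n n' a b c d
    · exact Or.inr rfl
    · exact absurd a zero_ne_one
    · exact absurd b zero_ne_one
    · exact (pts_two (line_one.1 a) (line_one.1 b) (line_one.1 c) (line_one.1 d)).imp_right
        (congrArg line)

end Pool.Agent.Results.MP_c0175c_an.SuperWeak
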